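import Mathlib
import Pool.Agent.R204.MD

set_option autoImplicit false

/-!
# Metric mean dimension of Hölder maps of the interval

The definitions (`IsSep`, `sepCard`, `sepRate`, `upperMdim`, `lowerMdim`, `IsHolder`) are at the beginning of
`Pool/Agent/R204/MD.lean`.
-/

namespace Pool.Agent.Results.MP_428550_an.HolderBound

open Pool.Agent.R204.MD
open scoped unitInterval

/-- An `α`-Hölder continuous map `φ` of `[0, 1]`, `0 < α ≤ 1`, satisfies
`0 ≤ lower mdim ≤ upper mdim ≤ 1 - α`; in particular neither metric mean dimension equals `1`. -/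
theorem result (α : ℝ) (hα : 0 < α) (hα1 : α ≤ 1) (φ : I → I) (hφ : IsHolder φ α) :
    0 ≤ lowerMdim φ ∧ lowerMdim φ ≤ upperMdim φ ∧ upperMdim φ ≤ ((1 - α : ℝ) : EReal) ∧
      upperMdim φ ≠ 1 ∧ lowerMdim φ ≠ 1 := by
  have h1 := upperMdim_le hα hα1 hφ
  have h2 : ((1 - α : ℝ) : EReal) < 1 := by
    have : ((1 - α : ℝ) : EReal) < ((1 : ℝ) : EReal) := by
      rw [EReal.coe_lt_coe_iff]; linarith
    simpa using this
  exact ⟨lowerMdim_nonneg φ, lower_le_upper φ, h1, (lt_of_le_of_lt h1 h2).ne,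
    (lt_of_le_of_lt ((lower_le_upper φ).trans h1) h2).ne⟩

end Pool.Agent.Results.MP_428550_an.HolderBound
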